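import Pool.Agent.Run7.h612.SY.Base
import Pool.Agent.Run7.h701.HK.Main

/-!
# The base locus of nef parabolic line bundles on hyperkähler manifolds

Let `X` be a projective hyperkähler manifold (or a normal projective variety with a
Beauville–Bogomolov form `b` on `Cl X ⊗ ℚ`), and let `L` be a nef divisor on `X` with
`b(L, L) = 0`, not numerically trivial; it is sufficient that `L` is nonnegative on the prime
divisors, for instance movable.

1. The Iitaka dimension of `L` is positive if and only if for some `m ≥ 1` the linear system `|m L|`
   has no fixed component.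
2. If the Iitaka dimension of `L` is positive then there is `m ≥ 1` such that the base locus of
   `|m L|` has codimension at least two, and all its components `W` of codimension two are
   coisotropic, for every Poisson bracket compatible with `b` (for instance the one given by the
   symplectic form).

So a nef parabolic line bundle of positive Iitaka dimension is semiample in codimension one, and the
obstruction to semiampleness in codimension two consists of coisotropic subvarieties.

`NormalModel` and `IsPrimeDivisor` are defined in `Pool.Agent.Y172.Defs`, `localRing` and `Through` in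
`Pool.Agent.R887.Defs`, `cls` in `Pool.Agent.N110.NV.Defs`, `NefD` in `Pool.Agent.N110.DV.Defs`,
`IsBBForm` in `Pool.Agent.Run7.h701.HK.Defs`, the other definitions in `Run7.h612.SY`.
-/

set_option autoImplicit false

open FF Pool.Agent.Y172 Pool.Agent.N110 Pool.Agent.Run7.h701 Run7.h612.SY
open Pool.Agent.N110.DV (NefD)

/-- Let `X` be a normal projective variety of dimension `n` with generic point `y`, `b` a
Beauville–Bogomolov form on `Cl X ⊗ ℚ = ℚ ^ ρ` and `L` a divisor on `X` with nonzero class and
`b(L, L) = 0`, nef or nonnegative on the prime divisors. Then the Iitaka dimension of `L` is positive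
if and only if some `|m L|`, `m ≥ 1`, has no fixed component; and in this case there is such an `m`
for which moreover every subvariety of dimension at least `n - 2` (the centre of a place `R`) in the
base locus of `|m L|` is coisotropic for all Poisson brackets compatible with `b`. -/
theorem Pool.Agent.Results.MP_be00df_ag.BaseLocus.result
    {K : Type} [Field K] [Algebra ℂ K] {N ρ n : ℕ} {y : Fin (N + 1) → K} (hy : NormalModel y)
    (hn : Algebra.trdeg ℂ K = n) {c : Place ℂ K → Fin ρ → ℚ}
    {b : LinearMap.BilinForm ℚ (Fin ρ → ℚ)} (hb : HK.IsBBForm y c b) {L : Place ℂ K → ℚ}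
    (hL : IsDivisor y L)
    (hnef : NefD y n L ∨ ∀ P, IsPrimeDivisor y P → 0 ≤ b (cls y c L) (c P))
    (hne : cls y c L ≠ 0) (hq : b (cls y c L) (cls y c L) = 0) :
    (IitakaGe y L 1 ↔ ∃ m : ℕ, 1 ≤ m ∧ NoFixedComponent y (m • L)) ∧
    (IitakaGe y L 1 → ∃ m : ℕ, 1 ≤ m ∧ NoFixedComponent y (m • L) ∧
      ∀ br : K → K → K, IsPoisson y br → IsSymplecticForm y n br c b →
        ∀ R : Place ℂ K, InBaseLocus y (m • L) R → CentreDimGe y R (n - 2) →
          CoisotropicCentre br y R) := by
  have hmov : ∀ P, IsPrimeDivisor y P → 0 ≤ b (cls y c L) (c P) := fun P hP => by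
    rcases hnef with h | h
    · exact HK.nef_pair hy hn hb hL h hP
    · exact h P hP
  refine ⟨⟨fun h => ?_, fun ⟨m, hm, h⟩ => kappa_of_noFixed hb hL hne hm h⟩, fun h => ?_⟩
  · obtain ⟨m, hm, h1, -⟩ := base_main hy hb hL hmov hne hq h
    exact ⟨m, hm, h1⟩
  · obtain ⟨m, hm, h1, h2⟩ := base_main hy hb hL hmov hne hq h
    exact ⟨m, hm, h1, fun br _ hs => h2 n br hs⟩
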