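import Pool.Agent.Run7.h701.HK.Inf

/-!
# The prime divisors orthogonal to a nef parabolic divisor

Let `X` be a projective hyperkähler manifold of any deformation type, or more generally a normal
projective variety of irregularity zero with a Beauville–Bogomolov form: a symmetric bilinear form on
`Cl X ⊗ ℚ` of signature `(1, ρ - 1)` which is nonnegative on pairs of different prime divisors. Let `L`
be a nef divisor with `q(L) = 0`, not numerically trivial. If `κ(L) ≥ 1` then infinitely many prime
divisors are orthogonal to `L`. Conversely, if at least `ρ` prime divisors are orthogonal to `L` then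
`κ(L) ≥ 1`, and if `ρ - 1` prime divisors are orthogonal to `L` then `κ(L) ≥ 0`.

`NormalModel` and `IsPrimeDivisor` are defined in `Pool.Agent.Y172.Defs`, `cls` and `FiniteClasses` in
`Pool.Agent.N110.NV.Defs`, `NefD` and `IitakaGe` in `Pool.Agent.N110.DV.Defs`, `IsBBForm` and `orth`
in `Pool.Agent.Run7.h701.HK.Defs`.
-/

set_option autoImplicit false

open FF Pool.Agent.Y172 Pool.Agent.N110 Pool.Agent.N110.DV Pool.Agent.Run7.h701.HK

/-- Let `X` be a normal projective variety of dimension `n` with generic point `y`, `b` a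
Beauville–Bogomolov form on `Cl X ⊗ ℚ = ℚ ^ ρ` and `L` a nef `ℚ`-divisor on `X` with nonzero class and
`b(L, L) = 0`. Then `κ(L) ≥ 1` if and only if infinitely many prime divisors of `X` are orthogonal to
`L`; otherwise at most `ρ - 1` prime divisors are orthogonal to `L`, and at most `ρ - 2` if no positive
multiple of `L` has a nonzero section. -/
theorem Pool.Agent.Results.MP_be00df_ag.OrthogonalPrimeDivisors.result
    {K : Type} [Field K] [Algebra ℂ K] {N ρ n : ℕ} {y : Fin (N + 1) → K} (hy : NormalModel y)
    (hn : Algebra.trdeg ℂ K = n) {c : Place ℂ K → Fin ρ → ℚ}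
    {b : LinearMap.BilinForm ℚ (Fin ρ → ℚ)} (hb : IsBBForm y c b) {L : Place ℂ K → ℚ}
    (hL : {P | IsPrimeDivisor y P ∧ L P ≠ 0}.Finite) (hnef : NefD y n L)
    (hne : cls y c L ≠ 0) (hq : b (cls y c L) (cls y c L) = 0) :
    (IitakaGe y L 1 ↔ (orth y c b L).Infinite) ∧
    (¬ IitakaGe y L 1 → (orth y c b L).Finite ∧ (orth y c b L).ncard + 1 ≤ ρ) ∧
    (¬ IitakaGe y L 0 → (orth y c b L).ncard + 2 ≤ ρ) :=
  main hy hn hb hL hnef hne hq
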